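import Mathlib

namespace Pool.Agent.Results.MP_80b119_nt.Counter

theorem result : ∃ n q : ℕ, q.Prime ∧
    q ^ 2 ∣ (∏ k ∈ Finset.range n, Nat.nth Nat.Prime k) ^ 2 + 1 := by
  have h : ∀ k p, p.Prime → Nat.count Nat.Prime p = k → Nat.nth Nat.Prime k = p :=
    fun k p hp h => h ▸ Nat.nth_count hp
  refine ⟨9, 29, by norm_num, ?_⟩
  simp only [Finset.prod_range_succ, Finset.prod_range_zero]
  rw [h 0 2 (by norm_num) (by decide), h 1 3 (by norm_num) (by decide),
    h 2 5 (by norm_num) (by decide), h 3 7 (by norm_num) (by decide),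
    h 4 11 (by norm_num) (by decide), h 5 13 (by norm_num) (by decide),
    h 6 17 (by norm_num) (by decide), h 7 19 (by norm_num) (by decide),
    h 8 23 (by norm_num) (by decide)]
  norm_num

end Pool.Agent.Results.MP_80b119_nt.Counter
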